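import Pool.Agent.H287R3.RA.Had

/-!
# Hadamard matrices have no large alternating symmetry
-/

set_option autoImplicit false

namespace Pool.Agent.Results.MP_d8b1b3_co.AlternatingSymmetry

open Finset Equiv

/-- the matrix extended to signed rows and signed columns -/
def ext {N : ℕ} (H : Matrix (Fin N) (Fin N) ℤ) (p q : Fin N × ℤˣ) : ℤ :=
  (p.2 : ℤ) * (q.2 : ℤ) * H p.1 q.1

lemma units_sq (u : ℤˣ) : (u : ℤ) * (u : ℤ) = 1 := by
  rcases Int.units_eq_one_or u with h | h <;> simp [h]

/-- two signed rows which are neither equal nor opposite differ at exactly `N` signed columns -/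
lemma card_differ {N : ℕ} (H : Matrix (Fin N) (Fin N) ℤ)
    (hpm : ∀ i j, H i j = 1 ∨ H i j = -1)
    (hO : H * H.transpose = (N : ℤ) • (1 : Matrix (Fin N) (Fin N) ℤ))
    (x x' : Fin N × ℤˣ) (h : x.1 ≠ x'.1) :
    (univ.filter (fun y => ext H x y ≠ ext H x' y)).card = N := by
  classical
  have horth : ∑ c : Fin N, H x.1 c * H x'.1 c = 0 := by
    have h1 := congrFun (congrFun hO x.1) x'.1
    rw [Matrix.mul_apply, Matrix.smul_apply, Matrix.one_apply_ne h, smul_zero] at h1
    simpa [Matrix.transpose_apply] using h1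
  have hval : ∀ p q : Fin N × ℤˣ, ext H p q = 1 ∨ ext H p q = -1 := by
    intro p q
    unfold ext
    rcases Int.units_eq_one_or p.2 with h1 | h1 <;> rcases Int.units_eq_one_or q.2 with h2 | h2 <;>
      rcases hpm p.1 q.1 with h3 | h3 <;> simp [h1, h2, h3]
  have hterm : ∀ y : Fin N × ℤˣ, 1 - ext H x y * ext H x' y =
      if ext H x y ≠ ext H x' y then 2 else 0 := by
    intro y
    rcases hval x y with h1 | h1 <;> rcases hval x' y with h2 | h2 <;> simp [h1, h2]
  have hzero : ∑ y : Fin N × ℤˣ, ext H x y * ext H x' y = 0 := by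
    have e : ∀ y : Fin N × ℤˣ, ext H x y * ext H x' y =
        ((x.2 : ℤ) * (x'.2 : ℤ)) * (H x.1 y.1 * H x'.1 y.1) := by
      intro y
      unfold ext
      have := units_sq y.2
      calc _ = ((y.2 : ℤ) * (y.2 : ℤ)) * (((x.2 : ℤ) * (x'.2 : ℤ)) * (H x.1 y.1 * H x'.1 y.1)) := by
            ring
        _ = _ := by rw [this, one_mul]
    simp_rw [e]
    rw [← Finset.mul_sum, Fintype.sum_prod_type]
    simp only [Finset.sum_const, Finset.card_univ]
    rw [← Finset.smul_sum, horth, smul_zero, mul_zero]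
  have hsum : ∑ y : Fin N × ℤˣ, (1 - ext H x y * ext H x' y) = 2 * (N : ℤ) := by
    rw [Finset.sum_sub_distrib, hzero, sub_zero]
    simp [Fintype.card_prod, mul_comm]
  simp_rw [hterm] at hsum
  rw [Finset.sum_ite, Finset.sum_const, Finset.sum_const_zero, add_zero, nsmul_eq_mul] at hsum
  have : ((univ.filter (fun y => ext H x y ≠ ext H x' y)).card : ℤ) = N := by linarith
  exact_mod_cast this

/-- Let `H` be a Hadamard matrix of order `N`, and let the alternating group on `m` letters act by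
automorphisms of `H`: it acts on the signed rows (by `φ`) and on the signed columns (by `ψ`)
such that the extended matrix is preserved.
If the action on rows is not trivial then `m ≤ 24 log₂ (2N) + 8`. -/
theorem result {N : ℕ} (H : Matrix (Fin N) (Fin N) ℤ)
    (hpm : ∀ i j, H i j = 1 ∨ H i j = -1)
    (hO : H * H.transpose = (N : ℤ) • (1 : Matrix (Fin N) (Fin N) ℤ)) (m : ℕ)
    (φ ψ : alternatingGroup (Fin m) →* Perm (Fin N × ℤˣ))
    (hinv : ∀ g p q, ext H (φ g p) (ψ g q) = ext H p q) (hne : φ ≠ 1) :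
    m ≤ 24 * Nat.log 2 (2 * N) + 8 := by
  classical
  obtain ⟨g, p, hgp⟩ : ∃ g p, φ g p ≠ p := by
    by_contra hcon
    push Not at hcon
    apply hne
    refine MonoidHom.ext fun g => Equiv.ext fun p => ?_
    exact hcon g p
  set j := 6 * Nat.log 2 (2 * N) + 2 with hj
  by_cases hm : m < 2 * j + 3
  · omega
  push Not at hm
  have hcard : Fintype.card (Fin N × ℤˣ) = 2 * N := by
    simp [Fintype.card_prod, mul_comm]
  have hN : 0 < N := lt_of_le_of_lt (Nat.zero_le _) p.1.2
  let aX : MulAction (alternatingGroup (Fin m)) (Fin N × ℤˣ) := MulAction.compHom _ φ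
  obtain ⟨x', h1, h2, h3⟩ : ∃ x' : Fin N × ℤˣ, x' ≠ p ∧ x' ≠ (p.1, -p.2) ∧
      Fintype.card (Fin m) * (univ.filter (fun y => ext H p y ≠ ext H x' y)).card ≤
        2 * (j * Fintype.card (Fin N × ℤˣ)) := by
    refine @Pool.Agent.H287R3.RA.rows_close (Fin m) _ _ (Fin N × ℤˣ) (Fin N × ℤˣ) _ _ _ _
      aX (MulAction.compHom _ ψ) (ext H) (fun g x y => hinv g x y) p (p.1, -p.2) ⟨g, hgp⟩ j ?_ ?_ ?_
    · intro x
      have := Pool.Agent.H287R3.RA.ms_card (α := Fin m) x
      rwa [hcard] at this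
    · intro y
      have := @Pool.Agent.H287R3.RA.ms_card (Fin m) _ _ (Fin N × ℤˣ) (MulAction.compHom _ ψ) _ y
      rwa [hcard] at this
    · simpa using hm
  have h4 : p.1 ≠ x'.1 := by
    intro h
    rcases eq_or_ne x'.2 p.2 with h5 | h5
    · exact h1 (Prod.ext h.symm h5)
    · apply h2
      have h8 : x'.2 = -p.2 := by
        rcases Int.units_eq_one_or x'.2 with h6 | h6 <;>
          rcases Int.units_eq_one_or p.2 with h7 | h7 <;> rw [h6, h7] at h5 ⊢ <;>
            first | exact absurd rfl h5 | simp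
      exact Prod.ext h.symm h8
  rw [card_differ H hpm hO p x' h4, hcard, Fintype.card_fin] at h3
  have h5 : m * N ≤ (4 * j) * N := by
    calc m * N ≤ 2 * (j * (2 * N)) := h3
      _ = (4 * j) * N := by ring
  have h6 := Nat.le_of_mul_le_mul_right h5 hN
  omega

end Pool.Agent.Results.MP_d8b1b3_co.AlternatingSymmetry
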