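import Pool.Agent.H13R3.PH.C1

/-!
# Half of a Hadamard matrix, asymptotically, for every order divisible by four

For every natural number `A` and every sufficiently large `n` divisible by `4` there are
`r ≥ n / 2 - n / (log n) ^ A` pairwise orthogonal sign vectors of length `n`.
-/

namespace Pool.Agent.Results.MP_d8b1b3_co.HalfHadamard

theorem result (A : ℕ) : ∃ n₀ : ℕ, ∀ n : ℕ, n₀ ≤ n → 4 ∣ n →
    ∃ r : ℕ, (n : ℝ) / 2 - n / (Real.log n) ^ A ≤ r ∧
      ∃ H : Matrix (Fin r) (Fin n) ℤ, (∀ i j, H i j = 1 ∨ H i j = -1) ∧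
        H * H.transpose = (n : ℤ) • (1 : Matrix (Fin r) (Fin r) ℤ) :=
  Pool.Agent.H13R3.PH.half_hadamard A

end Pool.Agent.Results.MP_d8b1b3_co.HalfHadamard
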