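import Pool.Agent.H627R5.ModE

/-!
# Hadamard matrices modulo four times an odd prime

For every odd prime `p` and every sufficiently large `n` divisible by `4` there is an `n × n`
matrix with entries `±1` whose distinct rows all have inner products divisible by `4 p`.
-/

open Matrix

namespace Pool.Agent.Results.MP_d8b1b3_co.ModularPrime

theorem result (p : ℕ) (hp : p.Prime) (hp2 : p ≠ 2) : ∃ n₀ : ℕ, ∀ n : ℕ, n₀ ≤ n → 4 ∣ n →
    ∃ H : Matrix (Fin n) (Fin n) ℤ, (∀ i j, H i j = 1 ∨ H i j = -1) ∧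
      ∀ i j, i ≠ j → (4 * (p : ℤ)) ∣ (H * Hᵀ) i j := by
  obtain ⟨n₀, h⟩ := Pool.Agent.H627R5.Md.modular4 hp hp2
  refine ⟨n₀, fun n hn h4 => ?_⟩
  obtain ⟨H, h1, h2⟩ := h n hn h4
  refine ⟨H, h1, fun i j hij => ?_⟩
  have := h2 i j hij
  push_cast at this
  exact this

end Pool.Agent.Results.MP_d8b1b3_co.ModularPrime
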