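import Pool.Agent.H627R5.Near
import Pool.Agent.H627R5.Rep

/-!
# Nearly Hadamard square sign matrices of every large order divisible by four

For every natural number `A` and every sufficiently large `n` divisible by `4` there is an
`n × n` matrix with entries `±1` in which every row is orthogonal to all but at most two of the
other rows, and all but at most `n / (log n) ^ A` of the rows are orthogonal to all but one of
the other rows, with an inner product of size at most `n / (log n) ^ A` with the remaining one.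
Any two distinct columns of the matrix have an inner product of size at most `n / (log n) ^ A`.
-/

open Matrix

namespace Pool.Agent.Results.MP_d8b1b3_co.NearHadamard

theorem result (A : ℕ) : ∃ n₀ : ℕ, ∀ n : ℕ, n₀ ≤ n → 4 ∣ n →
    ∃ H : Matrix (Fin n) (Fin n) ℤ, (∀ i j, H i j = 1 ∨ H i j = -1) ∧
      (∀ i, {j | j ≠ i ∧ (H * Hᵀ) i j ≠ 0}.ncard ≤ 2) ∧
      (∀ i j, i ≠ j → 2 * |(H * Hᵀ) i j| ≤ n) ∧
      (∃ S : Finset (Fin n), (S.card : ℝ) ≤ n / (Real.log n) ^ A ∧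
        ∀ i ∉ S, ∃ i' ≠ i, ((|(H * Hᵀ) i i'| : ℤ) : ℝ) ≤ n / (Real.log n) ^ A ∧
          ∀ j, j ≠ i → j ≠ i' → (H * Hᵀ) i j = 0) ∧
      (∀ i j, i ≠ j → ((|(Hᵀ * H) i j| : ℤ) : ℝ) ≤ n / (Real.log n) ^ A) := by
  obtain ⟨n₀, h₀⟩ := Pool.Agent.H627R5.rep A
  refine ⟨n₀, fun n hn h4 => ?_⟩
  obtain ⟨b, d, hsum, ⟨M, hM1, hM2⟩, ⟨B, hB1, hB2⟩, hdb, hd⟩ := h₀ n hn h4
  obtain ⟨H, S, g1, g2, g3, g4, g5, g6⟩ := Pool.Agent.H627R5.near hdb hM1 hB1 hM2 hB2 hsum
  have hd0 : (0 : ℝ) ≤ d := by positivity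
  have hd' : (d : ℝ) ≤ n / (Real.log n) ^ A := by linarith
  refine ⟨H, g1, g2, g3, ⟨S, ?_, ?_⟩, ?_⟩
  · have h1 : (S.card : ℝ) ≤ 3 * d := by exact_mod_cast g4
    linarith
  · intro i hi
    obtain ⟨i', e1, e2, e3⟩ := g5 i hi
    refine ⟨i', e1, ?_, e3⟩
    rw [e2, abs_of_nonneg (by positivity)]
    push_cast
    exact hd'
  · intro i j hij
    have h1 : ((|(Hᵀ * H) i j| : ℤ) : ℝ) ≤ ((d : ℤ) : ℝ) := by exact_mod_cast g6 i j hij
    refine h1.trans ?_
    push_cast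
    exact hd'

end Pool.Agent.Results.MP_d8b1b3_co.NearHadamard
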